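import Pool.Agent.H93.Ins.Mean
import Pool.Agent.H7.Han.Fin

/-!
# The Hanoi towers groups on words

For every `n ≥ 5` the group on words over `Fin n` generated by the `a i j` has no invariant mean:
a mean would be carried over to the group on sequences over `Fin 5`, whose finite sets have
large boundary.
-/

set_option autoImplicit false
open Classical
open Equiv

namespace Pool.H93Ins

open Pool.Han

section

variable (n : ℕ) (hn : 5 ≤ n)

/-- the first `t` letters of a sequence over five letters, as a word over `n` letters -/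
def pre (x : Sq) (t : ℕ) : List (Fin n) := List.ofFn (fun s : Fin t => Fin.castLE hn (x s))

lemma pre_zero (x : Sq) : pre n hn x 0 = [] := by
  simp [pre]

lemma pre_succ (y : Fin 5) (x : Sq) (t : ℕ) :
    pre n hn (cons y x) (t + 1) = Fin.castLE hn y :: pre n hn x t := by
  simp [pre, List.ofFn_succ]

lemma pre_inj {x y : Sq} (h : ∀ t, pre n hn x t = pre n hn y t) : x = y := by
  funext t
  have h1 := List.ofFn_injective (h (t + 1))
  have h2 := congrFun h1 ⟨t, Nat.lt_succ_self t⟩
  exact Fin.castLE_injective hn h2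

variable (a : Fin n → Fin n → List (Fin n) → List (Fin n))

lemma a_pre (ha0 : ∀ i j, a i j [] = [])
    (ha1 : ∀ i j x w, a i j (x :: w) =
      if x = i then j :: w else if x = j then i :: w else x :: a i j w)
    (i j : Fin 5) (t : ℕ) : ∀ x : Sq,
    a (Fin.castLE hn i) (Fin.castLE hn j) (pre n hn x t) = pre n hn (af i j x) t := by
  induction t with
  | zero => intro x; rw [pre_zero, pre_zero, ha0]
  | succ t ih =>
    intro x
    obtain ⟨y, x', rfl⟩ : ∃ y x', x = cons y x' := ⟨x 0, tl x, (cons_tl x).symm⟩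
    rw [pre_succ, ha1]
    by_cases h1 : y = i
    · rw [if_pos (by rw [h1]), af_cons_of i j y x' (Or.inl h1), pre_succ, h1, swap_apply_left]
    · rw [if_neg (fun h => h1 (Fin.castLE_injective hn h))]
      by_cases h2 : y = j
      · rw [if_pos (by rw [h2]), af_cons_of i j y x' (Or.inr h2), pre_succ, h2, swap_apply_right]
      · rw [if_neg (fun h => h2 (Fin.castLE_injective hn h)), af_cons_not i j y x' h1 h2, pre_succ,
          ih]

lemma a_invol (ha0 : ∀ i j, a i j [] = [])
    (ha1 : ∀ i j x w, a i j (x :: w) =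
      if x = i then j :: w else if x = j then i :: w else x :: a i j w)
    (i j : Fin n) : ∀ w : List (Fin n), a i j (a i j w) = w := by
  intro w
  induction w with
  | nil => rw [ha0, ha0]
  | cons x w ih =>
    rw [ha1 i j x w]
    by_cases h1 : x = i
    · rw [if_pos h1, ha1]
      by_cases h2 : j = i
      · rw [if_pos h2, h1, h2]
      · rw [if_neg h2, if_pos rfl, h1]
    · rw [if_neg h1]
      by_cases h2 : x = j
      · rw [if_pos h2, ha1, if_pos rfl, h2]
      · rw [if_neg h2, ha1, if_neg h1, if_neg h2, ih]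

/-- the groups on words have no invariant mean -/
theorem no_mean (hn' : 5 ≤ n) (ha0 : ∀ i j, a i j [] = [])
    (ha1 : ∀ i j x w, a i j (x :: w) =
      if x = i then j :: w else if x = j then i :: w else x :: a i j w)
    (H : Subgroup (Perm (List (Fin n))))
    (hH : H = Subgroup.closure {σ | ∃ i j : Fin n, i < j ∧ ∀ w, σ w = a i j w})
    (m : Set H → ℝ) (h0 : ∀ A, 0 ≤ m A) (h1 : m Set.univ = 1)
    (hm : ∀ A B : Set H, Disjoint A B → m (A ∪ B) = m A + m B)
    (hi : ∀ (g : H) (A : Set H), m ((fun x => g * x) '' A) = m A) : False := by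
  let D : Subgroup (H × G) :=
    { carrier := {p | ∀ (x : Sq) (t : ℕ),
        (p.1 : Perm (List (Fin n))) (pre n hn' x t) = pre n hn' ((p.2 : Perm Sq) x) t}
      one_mem' := fun x t => rfl
      mul_mem' := by
        intro p q hp hq x t
        show (p.1 : Perm (List (Fin n))) ((q.1 : Perm (List (Fin n))) (pre n hn' x t)) =
          pre n hn' ((p.2 : Perm Sq) ((q.2 : Perm Sq) x)) t
        rw [hq x t, hp]
      inv_mem' := by
        intro p hp x t
        show (p.1 : Perm (List (Fin n)))⁻¹ (pre n hn' x t) = pre n hn' ((p.2 : Perm Sq)⁻¹ x) t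
        rw [Perm.inv_eq_iff_eq]
        have h2 := hp ((p.2 : Perm Sq)⁻¹ x) t
        have h3 : (p.2 : Perm Sq) ((p.2 : Perm Sq)⁻¹ x) = x := Equiv.apply_symm_apply _ x
        rw [h3] at h2
        exact h2.symm }
  have hD1 : ∀ q : G, ((1 : H), q) ∈ D → q = 1 := by
    intro q hq
    apply Subtype.ext
    apply Equiv.ext
    intro x
    apply pre_inj n hn'
    intro t
    exact (hq x t).symm
  have hlt : ∀ i j : Fin 5, i < j → ∃ k : H, (k, L i j) ∈ D := by
    intro i j hij
    refine ⟨⟨⟨a (Fin.castLE hn' i) (Fin.castLE hn' j), a (Fin.castLE hn' i) (Fin.castLE hn' j),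
      a_invol n a ha0 ha1 _ _, a_invol n a ha0 ha1 _ _⟩, ?_⟩, ?_⟩
    · rw [hH]
      exact Subgroup.subset_closure ⟨Fin.castLE hn' i, Fin.castLE hn' j, hij, fun w => rfl⟩
    · intro x t
      exact a_pre n hn' a ha0 ha1 i j t x
  have hD2 : ∀ q : G, ∃ k : H, (k, q) ∈ D := by
    apply G_ind
    · exact ⟨1, D.one_mem⟩
    · intro i j hij
      rcases lt_or_gt_of_ne hij with h | h
      · exact hlt i j h
      · rw [L_comm]; exact hlt j i h
    · rintro g h ⟨k, hk⟩ ⟨l, hl⟩
      exact ⟨k * l, D.mul_mem hk hl⟩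
  obtain ⟨p, hp⟩ := exists_map D hD1 hD2
  obtain ⟨m', a0, a1, a2, a3⟩ := mean_map m h0 h1 hm hi p hp
  refine no_folner (fun ε hε => ?_)
  obtain ⟨F, hF, hF2⟩ := folner_of_mean m' a0 a1 a2 a3
    (Finset.univ.image (fun q : X × X => L q.1 q.2)) ε hε
  refine ⟨F, hF, fun i j _ => ?_⟩
  convert hF2 (L i j) (Finset.mem_image.2 ⟨(i, j), Finset.mem_univ _, rfl⟩)

end

end Pool.H93Ins
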