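import Mathlib

/-!
# Invariant means

An invariant mean on a group gives Folner sets for every finite subset (Hall's marriage
theorem), and it can be carried over to a quotient of a subgroup.
-/

set_option autoImplicit false
open Classical
open scoped Pointwise

namespace Pool.H93Ins

variable {G Q : Type*} [Group G] [Group Q]

omit [Group G] in
lemma mean_empty (m : Set G → ℝ)
    (ha : ∀ A B : Set G, Disjoint A B → m (A ∪ B) = m A + m B) : m ∅ = 0 := by
  have h := ha ∅ ∅ (by simp)
  rw [Set.empty_union] at h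
  linarith

omit [Group G] in
lemma mean_mono (m : Set G → ℝ) (h0 : ∀ A, 0 ≤ m A)
    (ha : ∀ A B : Set G, Disjoint A B → m (A ∪ B) = m A + m B) {A B : Set G} (h : A ⊆ B) :
    m A ≤ m B := by
  have h1 := ha A (B \ A) Set.disjoint_sdiff_right
  rw [Set.union_sdiff_cancel h] at h1
  have := h0 (B \ A)
  linarith

omit [Group G] in
lemma mean_sum (m : Set G → ℝ)
    (ha : ∀ A B : Set G, Disjoint A B → m (A ∪ B) = m A + m B) {ι : Type*} (I : Finset ι)
    (A : ι → Set G) (hd : ∀ i ∈ I, ∀ j ∈ I, i ≠ j → Disjoint (A i) (A j)) :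
    m (⋃ i ∈ I, A i) = ∑ i ∈ I, m (A i) := by
  induction I using Finset.induction_on with
  | empty => simpa using mean_empty m ha
  | insert i I hi ih =>
    rw [Finset.sum_insert hi, Finset.set_biUnion_insert, ha, ih]
    · intro a h1 b h2 h
      exact hd a (Finset.mem_insert_of_mem h1) b (Finset.mem_insert_of_mem h2) h
    · rw [Set.disjoint_iUnion₂_right]
      intro j hj
      refine hd i (Finset.mem_insert_self _ _) j (Finset.mem_insert_of_mem hj) ?_
      rintro rfl
      exact hi hj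

/-- an invariant mean gives Folner sets -/
theorem folner_of_mean (m : Set G → ℝ) (h0 : ∀ A, 0 ≤ m A) (h1 : m Set.univ = 1)
    (ha : ∀ A B : Set G, Disjoint A B → m (A ∪ B) = m A + m B)
    (hi : ∀ (g : G) (A : Set G), m ((fun x => g * x) '' A) = m A)
    (S : Finset G) (ε : ℝ) (hε : 0 < ε) :
    ∃ F : Finset G, F.Nonempty ∧
      ∀ s ∈ S, ((F.filter (fun g => s * g ∉ F)).card : ℝ) < ε * F.card := by
  by_contra hcon
  push Not at hcon
  have hg : ∀ F : Finset G, F.Nonempty → (1 + ε) * F.card ≤ ((insert 1 S * F).card : ℝ) := by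
    intro F hF
    obtain ⟨s, hs, hc⟩ := hcon F hF
    have hsub : F ∪ (F.filter (fun g => s * g ∉ F)).image (fun g => s * g) ⊆ insert 1 S * F := by
      intro x hx
      rw [Finset.mem_union, Finset.mem_image] at hx
      rcases hx with hx | ⟨g, hg, rfl⟩
      · rw [← one_mul x]
        exact Finset.mul_mem_mul (Finset.mem_insert_self _ _) hx
      · exact Finset.mul_mem_mul (Finset.mem_insert_of_mem hs) (Finset.mem_filter.1 hg).1
    have hdis : Disjoint F ((F.filter (fun g => s * g ∉ F)).image (fun g => s * g)) := by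
      rw [Finset.disjoint_right]
      intro x hx
      rw [Finset.mem_image] at hx
      obtain ⟨g, hg, rfl⟩ := hx
      exact (Finset.mem_filter.1 hg).2
    have h2 := Finset.card_le_card hsub
    rw [Finset.card_union_of_disjoint hdis,
      Finset.card_image_of_injective _ (mul_right_injective s)] at h2
    have h3 : ((F.card : ℝ) + ((F.filter (fun g => s * g ∉ F)).card : ℝ)) ≤
        ((insert 1 S * F).card : ℝ) := by exact_mod_cast h2
    linarith
  have hne : ∀ (k : ℕ) (F : Finset G), F.Nonempty → ((insert 1 S) ^ k * F).Nonempty := by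
    intro k F hF
    exact Finset.Nonempty.mul (Finset.Nonempty.pow ⟨1, Finset.mem_insert_self _ _⟩) hF
  have hpow : ∀ (k : ℕ) (F : Finset G), F.Nonempty →
      (1 + ε) ^ k * F.card ≤ (((insert 1 S) ^ k * F).card : ℝ) := by
    intro k F hF
    induction k with
    | zero => simp
    | succ k ih =>
      have h2 := hg _ (hne k F hF)
      rw [← mul_assoc, ← pow_succ'] at h2
      refine le_trans ?_ h2
      rw [pow_succ', mul_assoc]
      exact mul_le_mul_of_nonneg_left ih (by linarith)
  obtain ⟨k, hk⟩ := pow_unbounded_of_one_lt 2 (by linarith : 1 < 1 + ε)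
  obtain ⟨T, hT⟩ : ∃ T : Finset G, T = (insert 1 S) ^ k := ⟨_, rfl⟩
  have h2 : ∀ F : Finset G, 2 * F.card ≤ (T * F).card := by
    intro F
    rcases F.eq_empty_or_nonempty with rfl | hF
    · simp
    · have h3 := hpow k F hF
      rw [← hT] at h3
      have h4 : (2 : ℝ) * F.card ≤ (1 + ε) ^ k * F.card :=
        mul_le_mul_of_nonneg_right hk.le (Nat.cast_nonneg _)
      exact_mod_cast h4.trans h3
  obtain ⟨φ, hφi, hφ⟩ := (Finset.all_card_le_biUnion_card_iff_exists_injective
    (fun p : G × Bool => T.image (fun τ => τ * p.1))).1 (by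
      intro s
      have h3 : s ⊆ (s.image Prod.fst) ×ˢ (Finset.univ : Finset Bool) := by
        intro p hp
        rw [Finset.mem_product]
        exact ⟨Finset.mem_image_of_mem _ hp, Finset.mem_univ _⟩
      have h4 := Finset.card_le_card h3
      rw [Finset.card_product, Finset.card_univ, Fintype.card_bool, mul_comm] at h4
      refine h4.trans ((h2 _).trans (Finset.card_le_card ?_))
      intro x hx
      rw [Finset.mem_mul] at hx
      obtain ⟨τ, hτ, y, hy, rfl⟩ := hx
      rw [Finset.mem_image] at hy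
      obtain ⟨p, hp, rfl⟩ := hy
      rw [Finset.mem_biUnion]
      exact ⟨p, hp, Finset.mem_image_of_mem _ hτ⟩)
  have hφ' : ∀ p : G × Bool, ∃ τ ∈ T, φ p = τ * p.1 := by
    intro p
    have h3 := hφ p
    rw [Finset.mem_image] at h3
    obtain ⟨τ, hτ, h4⟩ := h3
    exact ⟨τ, hτ, h4.symm⟩
  obtain ⟨A, hA⟩ : ∃ A : Bool → G → Set G, ∀ b τ, A b τ = {g | φ (g, b) = τ * g} := ⟨_, fun _ _ => rfl⟩
  obtain ⟨B, hB⟩ : ∃ B : Bool → Set G, ∀ b, B b = ⋃ τ ∈ T, (fun x => τ * x) '' (A b τ) :=
    ⟨_, fun _ => rfl⟩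
  have hB1 : ∀ b, m (B b) = 1 := by
    intro b
    rw [hB, mean_sum m ha]
    · rw [Finset.sum_congr rfl (fun τ _ => hi τ (A b τ)), ← mean_sum m ha]
      · rw [← h1]
        congr 1
        rw [Set.eq_univ_iff_forall]
        intro g
        obtain ⟨τ, hτ, h3⟩ := hφ' (g, b)
        rw [Set.mem_iUnion₂]
        exact ⟨τ, hτ, by rw [hA]; exact h3⟩
      · intro τ _ τ' _ hne'
        rw [Set.disjoint_left]
        intro g hg1 hg2
        rw [hA, Set.mem_ofPred_eq] at hg1 hg2
        rw [hg1] at hg2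
        exact hne' (mul_right_cancel hg2)
    · intro τ _ τ' _ hne'
      rw [Set.disjoint_left]
      rintro x ⟨g, hg1, rfl⟩ ⟨g', hg2, h3⟩
      rw [hA, Set.mem_ofPred_eq] at hg1 hg2
      have h4 : φ (g, b) = φ (g', b) := by rw [hg1, hg2]; exact h3.symm
      have h5 : g = g' := congrArg Prod.fst (hφi h4)
      subst h5
      exact hne' (mul_right_cancel h3).symm
  have hBd : Disjoint (B true) (B false) := by
    rw [Set.disjoint_left]
    intro x hx1 hx2
    rw [hB, Set.mem_iUnion₂] at hx1 hx2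
    obtain ⟨τ, _, g, hg1, rfl⟩ := hx1
    obtain ⟨τ', _, g', hg2, h3⟩ := hx2
    rw [hA, Set.mem_ofPred_eq] at hg1 hg2
    have h4 : φ (g, true) = φ (g', false) := by rw [hg1, hg2]; exact h3.symm
    have h5 := congrArg Prod.snd (hφi h4)
    exact absurd h5 (by simp)
  have h3 := ha _ _ hBd
  rw [hB1, hB1] at h3
  have h4 := mean_mono m h0 ha (Set.subset_univ (B true ∪ B false))
  rw [h3, h1] at h4
  norm_num at h4

/-- a correspondence between a subgroup of `G` and the whole of `Q` gives a map `G → Q` -/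
theorem exists_map (D : Subgroup (G × Q)) (hD1 : ∀ q : Q, ((1 : G), q) ∈ D → q = 1)
    (hD2 : ∀ q : Q, ∃ k : G, (k, q) ∈ D) :
    ∃ p : G → Q, ∀ q : Q, ∃ k : G, ∀ g : G, p (k * g) = q * p g := by
  let s : Setoid G :=
    { r := fun g h => ∃ q : Q, (g * h⁻¹, q) ∈ D
      iseqv :=
        { refl := fun g => ⟨1, by rw [mul_inv_cancel]; exact D.one_mem⟩
          symm := by
            rintro g h ⟨q, hq⟩
            refine ⟨q⁻¹, ?_⟩
            have := D.inv_mem hq
            rwa [Prod.inv_mk, mul_inv_rev, inv_inv] at this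
          trans := by
            rintro g h l ⟨q, hq⟩ ⟨q', hq'⟩
            refine ⟨q * q', ?_⟩
            have := D.mul_mem hq hq'
            rwa [Prod.mk_mul_mk, mul_assoc, inv_mul_cancel_left] at this } }
  have hr : ∀ g : G, ∃ q : Q, (g * (Quotient.out (Quotient.mk s g))⁻¹, q) ∈ D := by
    intro g
    have h1 : s.r (Quotient.out (Quotient.mk s g)) g := Quotient.exact (Quotient.out_eq _)
    exact s.iseqv.symm h1
  choose p hp using hr
  refine ⟨p, fun q => ?_⟩
  obtain ⟨k, hk⟩ := hD2 q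
  refine ⟨k, fun g => ?_⟩
  have h1 : Quotient.mk s (k * g) = Quotient.mk s g := by
    apply Quotient.sound
    refine ⟨q, ?_⟩
    rwa [mul_inv_cancel_right]
  have h2 := hp (k * g)
  rw [h1] at h2
  have h3 := D.mul_mem hk (hp g)
  rw [Prod.mk_mul_mk, ← mul_assoc] at h3
  have h4 := D.mul_mem (D.inv_mem h3) h2
  rw [Prod.inv_mk, Prod.mk_mul_mk, inv_mul_cancel] at h4
  have h5 := hD1 _ h4
  rw [inv_mul_eq_one] at h5
  exact h5.symm

/-- the mean is carried over -/
theorem mean_map (m : Set G → ℝ) (h0 : ∀ A, 0 ≤ m A) (h1 : m Set.univ = 1)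
    (ha : ∀ A B : Set G, Disjoint A B → m (A ∪ B) = m A + m B)
    (hi : ∀ (g : G) (A : Set G), m ((fun x => g * x) '' A) = m A)
    (p : G → Q) (hp : ∀ q : Q, ∃ k : G, ∀ g : G, p (k * g) = q * p g) :
    ∃ m' : Set Q → ℝ, (∀ A, 0 ≤ m' A) ∧ m' Set.univ = 1 ∧
      (∀ A B : Set Q, Disjoint A B → m' (A ∪ B) = m' A + m' B) ∧
      ∀ (q : Q) (A : Set Q), m' ((fun x => q * x) '' A) = m' A := by
  refine ⟨fun A => m (p ⁻¹' A), fun A => h0 _, h1,
    fun A B h => ?_, fun q A => ?_⟩
  · show m (p ⁻¹' (A ∪ B)) = _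
    rw [Set.preimage_union]
    exact ha _ _ (h.preimage p)
  · obtain ⟨k, hk⟩ := hp q
    show m (p ⁻¹' ((fun x => q * x) '' A)) = m (p ⁻¹' A)
    rw [← hi k (p ⁻¹' A)]
    congr 1
    ext g
    have h2 := hk (k⁻¹ * g)
    rw [mul_inv_cancel_left] at h2
    constructor
    · rintro ⟨y, hy, h3⟩
      refine ⟨k⁻¹ * g, ?_, mul_inv_cancel_left k g⟩
      have h4 : q * y = p g := h3
      rw [h2] at h4
      have h5 := mul_left_cancel h4
      show p (k⁻¹ * g) ∈ A
      rw [← h5]; exact hy
    · rintro ⟨x, hx, rfl⟩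
      refine ⟨p x, hx, ?_⟩
      show q * p x = p (k * x)
      rw [hk]

end Pool.H93Ins
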